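import Pool.Statements.S00830
import Pool.Agent.Zk65.Schmidt

set_option autoImplicit false
open Pool Pool.MP_196888_al

namespace Pool.Agent.S00830

/-- The negation of the preceding statement: For every group G, every m ≥ 2 and every lattice isomorphism φ from the subgroups of G^m to the subgroups of a group H such that H is the internal direct product of the images of the coordinate subgroups, the image of the first coordinate subgroup is isomorphic to G. -/
theorem result :
    ¬ (∀ (G : Type) [Group G] (n : ℕ) (H : Type) [Group H]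
      (φ : Subgroup (Fin (n + 2) → G) ≃o Subgroup H),
      (∀ i : Fin (n + 2),
          (φ (MonoidHom.mulSingle (fun _ : Fin (n + 2) => G) i).range).Normal) →
      (⨆ i : Fin (n + 2), φ (MonoidHom.mulSingle (fun _ : Fin (n + 2) => G) i).range) = ⊤ →
      iSupIndep (fun i : Fin (n + 2) =>
          φ (MonoidHom.mulSingle (fun _ : Fin (n + 2) => G) i).range) →
      Nonempty (↥(φ (MonoidHom.mulSingle (fun _ : Fin (n + 2) => G) 0).range) ≃* G)) := by
  intro hall
  let K : Fin 2 → Subgroup (Fin 2 → Zk65.Schmidt.HH) := fun i =>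
    (MonoidHom.mulSingle (fun _ : Fin 2 => Zk65.Schmidt.HH) i).range
  have hK : ∀ i : Fin 2, Zk65.Schmidt.latticeIso (Fin 2)
      (MonoidHom.mulSingle (fun _ : Fin 2 => Zk65.Schmidt.GG) i).range = K i :=
    fun i => Zk65.Schmidt.lattice_range 2 i
  have hmem : ∀ (i : Fin 2) (f : Fin 2 → Zk65.Schmidt.HH), f ∈ K i ↔ ∀ j, j ≠ i → f j = 1 := by
    intro i f
    constructor
    · rintro ⟨g, rfl⟩ j hj
      simp only [MonoidHom.mulSingle_apply]
      exact Pi.mulSingle_eq_of_ne hj _
    · intro h
      refine ⟨f i, ?_⟩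
      funext j
      simp only [MonoidHom.mulSingle_apply]
      by_cases hj : j = i
      · subst hj
        exact Pi.mulSingle_eq_same _ _
      · rw [Pi.mulSingle_eq_of_ne hj, h j hj]
  have h := hall Zk65.Schmidt.GG 0 (Fin 2 → Zk65.Schmidt.HH) (Zk65.Schmidt.latticeIso (Fin 2)) ?_ ?_ ?_
  · obtain ⟨ψ⟩ := h
    have h0 : Zk65.Schmidt.latticeIso (Fin 2)
      (MonoidHom.mulSingle (fun _ : Fin 2 => Zk65.Schmidt.GG) 0).range = K 0 := hK 0
    have e1 : ↥(Zk65.Schmidt.latticeIso (Fin 2)
        (MonoidHom.mulSingle (fun _ : Fin 2 => Zk65.Schmidt.GG) 0).range) ≃* K 0 :=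
      MulEquiv.subgroupCongr h0
    have e2 : Zk65.Schmidt.HH ≃* K 0 :=
      MonoidHom.ofInjective
        (f := MonoidHom.mulSingle (fun _ : Fin 2 => Zk65.Schmidt.HH) 0)
        (fun x y hxy => by
          have := congrFun hxy 0
          simpa using this)
    exact Zk65.Schmidt.not_iso.false ((e2.trans e1.symm).trans ψ)
  · intro i
    have hi := hK i
    refine ⟨fun f hf g => ?_⟩
    rw [hi, hmem] at hf ⊢
    intro j hj
    simp only [Pi.mul_apply, Pi.inv_apply]
    rw [hf j hj]
    group
  · rw [eq_top_iff]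
    intro f _
    have hf : f = (fun j => if j = 0 then f 0 else 1) * (fun j => if j = 1 then f 1 else 1) := by
      funext j
      fin_cases j <;> simp
    rw [hf]
    refine Subgroup.mul_mem _ ?_ ?_
    · have h0 := hK 0
      have : K 0 ≤ ⨆ i : Fin 2, Zk65.Schmidt.latticeIso (Fin 2)
          (MonoidHom.mulSingle (fun _ : Fin 2 => Zk65.Schmidt.GG) i).range := by
        rw [← h0]
        exact le_iSup (fun i : Fin 2 => Zk65.Schmidt.latticeIso (Fin 2)
          (MonoidHom.mulSingle (fun _ : Fin 2 => Zk65.Schmidt.GG) i).range) 0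
      apply this
      rw [hmem]
      intro j hj
      simp [hj]
    · have h0 := hK 1
      have : K 1 ≤ ⨆ i : Fin 2, Zk65.Schmidt.latticeIso (Fin 2)
          (MonoidHom.mulSingle (fun _ : Fin 2 => Zk65.Schmidt.GG) i).range := by
        rw [← h0]
        exact le_iSup (fun i : Fin 2 => Zk65.Schmidt.latticeIso (Fin 2)
          (MonoidHom.mulSingle (fun _ : Fin 2 => Zk65.Schmidt.GG) i).range) 1
      apply this
      rw [hmem]
      intro j hj
      simp [hj]
  · intro i
    rw [Subgroup.disjoint_def]
    intro f hf hf'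
    have hi := hK i
    replace hf : f ∈ Zk65.Schmidt.latticeIso (Fin 2)
      (MonoidHom.mulSingle (fun _ : Fin 2 => Zk65.Schmidt.GG) i).range := hf
    rw [hi, hmem] at hf
    have hle : (⨆ j : Fin 2, ⨆ (_ : j ≠ i), Zk65.Schmidt.latticeIso (Fin 2)
        (MonoidHom.mulSingle (fun _ : Fin 2 => Zk65.Schmidt.GG) j).range) ≤
        (Pi.evalMonoidHom (fun _ : Fin 2 => Zk65.Schmidt.HH) i).ker := by
      refine iSup₂_le fun j hj => ?_
      rw [hK j]
      intro g hg
      rw [hmem] at hg
      exact hg i (Ne.symm hj)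
    have h1 : f i = 1 := hle hf'
    funext j
    by_cases hj : j = i
    · subst hj; exact h1
    · exact hf j hj

end Pool.Agent.S00830
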