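import Pool.Statements.S09632
import Pool.Agent.Zk56.EO.Fin

/-!
The edge-ordered path `F` with seven vertices and the ranks `4, 1, 2, 5, 6, 3` along the path has order
chromatic number two (dense edge-ordered graphs contain it, `Pool.Agent.Zk56.EO.dense`), but there are
edge-ordered graphs on `n` vertices with `n 2 ^ (c √(log n))` edges which avoid it.

The construction. Rows are pairs `(p, τ)`, columns are pairs `(q, σ)` with positions `p, q` in `ℤ ^ b` (in a box
with sides about `b 2 ^ b`) and types `τ, σ ∈ {0, 1} ^ b`; a row and a column are adjacent if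
`q = p + ν(τ) (τ xor σ)`, where `ν(τ) ∈ {1, ..., 2 ^ b}` is an injective numbering of the types. The rows at a
column have different types. The edges are ordered by the position of the column (lexicographically), then by
the type of the column, then by `ν(τ)` of the row, decreasing. In a copy of `F` with rows `r₁, r₂, r₃` and columns
`c₁ < c₂ < c₃ < c₄`, where `r₁, r₂` are at `c₁`, `r₃` is at `c₂`, `r₁` at `c₃` and `r₂, r₃` at `c₄`, one has
`ν₁ > ν₂ > ν₃`. The differences `c₃ - c₁`, `c₄ - c₁`, `c₄ - c₂` are `ν₁ u`, `ν₂ v`, `ν₃ w` with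
`u, v, w ∈ {-1, 0, 1} ^ b`; comparing the first nonzero coordinates gives a contradiction.
-/

set_option autoImplicit false
open Pool Pool.MP_79efce_co

namespace Pool.Agent.S09632

/-- The negation of the preceding statement: Assume F is an edge-ordered forest whose F-free edge-ordered graphs on n vertices have o(n^2) edges, which is equivalent to order chromatic number 2. Then such graphs have at most C·n·(log n)^c edges for some constants c and C. -/
theorem result :
    ¬ (∀ (k : ℕ) (F : SimpleGraph (Fin k)) (L : Sym2 (Fin k) → ℕ),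
      F.IsAcyclic → Set.InjOn L F.edgeSet →
      (∀ ε : ℝ, 0 < ε → ∃ N : ℕ, ∀ n : ℕ, N ≤ n →
        ∀ (G : SimpleGraph (Fin n)) (M : Sym2 (Fin n) → ℕ), Set.InjOn M G.edgeSet →
          (¬ ∃ φ : Fin k ↪ Fin n, (∀ a b, F.Adj a b → G.Adj (φ a) (φ b)) ∧
              ∀ e ∈ F.edgeSet, ∀ f ∈ F.edgeSet, L e < L f →
                M (Sym2.map (⇑φ) e) < M (Sym2.map (⇑φ) f)) →
          (G.edgeSet.ncard : ℝ) ≤ ε * (n : ℝ) ^ 2) →
      ∃ (c : ℕ) (C : ℝ), ∀ n : ℕ, 2 ≤ n →
        ∀ (G : SimpleGraph (Fin n)) (M : Sym2 (Fin n) → ℕ), Set.InjOn M G.edgeSet →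
          (¬ ∃ φ : Fin k ↪ Fin n, (∀ a b, F.Adj a b → G.Adj (φ a) (φ b)) ∧
              ∀ e ∈ F.edgeSet, ∀ f ∈ F.edgeSet, L e < L f →
                M (Sym2.map (⇑φ) e) < M (Sym2.map (⇑φ) f)) →
          (G.edgeSet.ncard : ℝ) ≤ C * (n : ℝ) * (Real.log (n : ℝ)) ^ c) := by
  intro h
  obtain ⟨c, C, hC⟩ := h 7 Pool.Agent.Zk56.EO.F Pool.Agent.Zk56.EO.L
    Pool.Agent.Zk56.EO.F_acyclic Pool.Agent.Zk56.EO.L_injOn Pool.Agent.Zk56.EO.dense
  exact Pool.Agent.Zk56.EO.not_polylog c C hC

end Pool.Agent.S09632
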