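import Pool.Statements.S14257
import Pool.Agent.Zk58.Congruences

set_option autoImplicit false
open Pool Pool.MP_f7c3cd_gt

namespace Pool.Agent.S14257

/-- Every proper system of at most continuum many congruences among at most continuum many (nonempty index set) sets has a solution: a partition of the hyperbolic plane where each congruence holds via some hyperbolic isometry. -/
theorem result :
    ∀ (I M : Type) (L R : M → Set I),
      Nonempty I →
      Cardinal.mk I ≤ Cardinal.continuum →
      Cardinal.mk M ≤ Cardinal.continuum →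
      (∀ i, (L i).Nonempty ∧ L i ≠ Set.univ ∧ (R i).Nonempty ∧ R i ≠ Set.univ) →
      ∃ A : I → Set UpperHalfPlane,
        Pairwise (fun j k => Disjoint (A j) (A k)) ∧
        (⋃ j, A j) = Set.univ ∧
        ∀ i, ∃ g : IsometryEquiv UpperHalfPlane UpperHalfPlane,
          g '' (⋃ j ∈ L i, A j) = ⋃ j ∈ R i, A j := by
  intro I M L R hI _ hM hprop
  obtain ⟨A, h1, h2, h3⟩ := Pool.Agent.Zk58.Congruences.solvable I M L R hI hM hprop
  refine ⟨A, h1, h2, ?_⟩
  intro i
  obtain ⟨g, hg⟩ := h3 i
  refine ⟨IsometryEquiv.constSMul g, ?_⟩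
  rw [← hg]
  rfl

end Pool.Agent.S14257
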