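import Pool.Statements.S16523
-- import your own Pool.Agent.* helpers here
import Pool.Agent.Zk19.K9

set_option autoImplicit false
open Pool Pool.MP_33a4a7_nt

namespace Pool.Agent.S16523

/-- For every y in R^2 and every nonnegative psi on N with sum of psi(q)^2 infinite, almost every x in [0,1]^2 has infinitely many q ≥ 1 with some integer vector a making the sup-norm of qx − a − y less than psi(q). -/
theorem result :
    ∀ (y : ℝ × ℝ) (ψ : ℕ → ℝ), (∀ q, 0 ≤ ψ q) →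
      ¬ Summable (fun q : ℕ => ψ q ^ 2) →
      ∀ᵐ x ∂(MeasureTheory.volume.restrict (Set.Icc (0 : ℝ × ℝ) 1)),
        {q : ℕ | 0 < q ∧ ∃ a : ℤ × ℤ,
          ‖(q : ℝ) • x - ((a.1 : ℝ), (a.2 : ℝ)) - y‖ < ψ q}.Infinite := by
  intro y ψ h0 hdiv
  rw [MeasureTheory.ae_restrict_iff' measurableSet_Icc]
  have hline1 : MeasureTheory.volume (({1} : Set ℝ) ×ˢ (Set.univ : Set ℝ)) = 0 := by
    rw [MeasureTheory.Measure.volume_eq_prod, MeasureTheory.Measure.prod_prod]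
    simp
  have hline2 : MeasureTheory.volume ((Set.univ : Set ℝ) ×ˢ ({1} : Set ℝ)) = 0 := by
    rw [MeasureTheory.Measure.volume_eq_prod, MeasureTheory.Measure.prod_prod]
    simp
  rw [MeasureTheory.ae_iff]
  have hsub : {x : ℝ × ℝ | ¬ (x ∈ Set.Icc (0 : ℝ × ℝ) 1 → {q : ℕ | 0 < q ∧ ∃ a : ℤ × ℤ,
      ‖(q : ℝ) • x - ((a.1 : ℝ), (a.2 : ℝ)) - y‖ < ψ q}.Infinite)} ⊆
      (⋃ Q0 : ℕ, ((Set.Ico (0 : ℝ) 1 ×ˢ Set.Ico (0 : ℝ) 1) \ Pool.Agent.Zk19.K.Tail y.1 y.2 ψ Q0)) ∪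
        ((({1} : Set ℝ) ×ˢ (Set.univ : Set ℝ)) ∪ ((Set.univ : Set ℝ) ×ˢ ({1} : Set ℝ))) := by
    rintro ⟨x1, x2⟩ hx
    simp only [Set.mem_ofPred_eq, Classical.not_imp] at hx
    obtain ⟨hmem, hfin⟩ := hx
    obtain ⟨⟨h1, h2⟩, h3, h4⟩ := hmem
    simp only [Prod.fst_zero, Prod.snd_zero, Prod.fst_one, Prod.snd_one] at h1 h2 h3 h4
    by_cases c1 : x1 = 1
    · right; left; exact ⟨c1, Set.mem_univ _⟩
    by_cases c2 : x2 = 1
    · right; right; exact ⟨Set.mem_univ _, c2⟩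
    left
    rw [Set.not_infinite] at hfin
    obtain ⟨B, hB⟩ := hfin.bddAbove
    rw [Set.mem_iUnion]
    refine ⟨B + 1, ⟨⟨h1, lt_of_le_of_ne h3 c1⟩, ⟨h2, lt_of_le_of_ne h4 c2⟩⟩, ?_⟩
    rintro ⟨q, hq1, hq2, a, ha1, ha2⟩
    have : q ≤ B := hB (by
      refine ⟨hq2, a, ?_⟩
      rw [Prod.norm_def, max_lt_iff]
      simp only [Prod.fst_sub, Prod.snd_sub, Prod.smul_fst, Prod.smul_snd, smul_eq_mul,
        Real.norm_eq_abs]
      exact ⟨ha1, ha2⟩)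
    omega
  refine MeasureTheory.measure_mono_null hsub (MeasureTheory.measure_union_null ?_
    (MeasureTheory.measure_union_null hline1 hline2))
  exact MeasureTheory.measure_iUnion_null fun Q0 =>
    Pool.Agent.Zk19.K.tail_full y.1 y.2 ψ h0 hdiv Q0

end Pool.Agent.S16523
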